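import Pool.Agent.Helper88.TT.Defs

/-!
# Block TT-3 of MP_a64d16_an: Cauchy-Binet and the minors
-/

namespace Pool.Agent.TT

open Matrix Module

/-- the row expansion of the determinant -/
theorem det_sum_expand {s : Type} [Fintype s] [DecidableEq s] {κ : Type} [Fintype κ]
    (p : κ → ℝ) (v : κ → s → ℝ) :
    (∑ b, p b • Matrix.vecMulVec (v b) (v b)).det =
      ∑ φ : s → κ, (∏ i, (p (φ i) * v (φ i) i)) * (Matrix.of fun i => v (φ i)).det := by
  classical
  have h0 : (∑ b, p b • Matrix.vecMulVec (v b) (v b)) =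
      Matrix.of (fun i => ∑ b, (p b * v b i) • v b) := by
    ext i j
    rw [Matrix.sum_apply, Matrix.of_apply, Finset.sum_apply]
    refine Finset.sum_congr rfl fun b _ => ?_
    simp only [Matrix.smul_apply, Matrix.vecMulVec_apply, smul_eq_mul, Pi.smul_apply]
    ring
  rw [h0]
  have h1 := (Matrix.detRowAlternating (n := s) (R := ℝ)).toMultilinearMap.map_sum
    (g := fun i b => (p b * v b i) • v b)
  have h2 : ∀ φ : s → κ,
      (Matrix.detRowAlternating (n := s) (R := ℝ)).toMultilinearMap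
        (fun i => (p (φ i) * v (φ i) i) • v (φ i)) =
      (∏ i, (p (φ i) * v (φ i) i)) * (Matrix.of fun i => v (φ i)).det := by
    intro φ
    rw [MultilinearMap.map_smul_univ, smul_eq_mul]
    rfl
  refine Eq.trans ?_ (h1.trans (Finset.sum_congr rfl fun φ _ => h2 φ))
  rfl

/-- TT-3a: Cauchy-Binet, symmetric form. -/
theorem det_sum_vecMulVec {s : Type} [Fintype s] [DecidableEq s] {κ : Type} [Fintype κ]
    (p : κ → ℝ) (v : κ → s → ℝ) :
    (∑ b, p b • Matrix.vecMulVec (v b) (v b)).det =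
      (∑ φ : s → κ, (∏ i, p (φ i)) * (Matrix.of fun i => v (φ i)).det ^ 2) /
        (Fintype.card s).factorial := by
  classical
  rw [eq_div_iff (by positivity), det_sum_expand]
  set F : (s → κ) → ℝ := fun φ =>
    (∏ i, (p (φ i) * v (φ i) i)) * (Matrix.of fun i => v (φ i)).det with hF
  have h1 : ∀ σ : Equiv.Perm s, ∑ φ, F φ = ∑ φ : s → κ, F (φ ∘ σ) := by
    intro σ
    exact (Equiv.sum_comp (Equiv.arrowCongr σ.symm (Equiv.refl κ)) F).symm
  have h2 : ∀ (φ : s → κ) (σ : Equiv.Perm s), F (φ ∘ σ) =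
      ((∏ i, p (φ i)) * (Matrix.of fun i => v (φ i)).det) *
        (((Equiv.Perm.sign σ : ℤ) : ℝ) * ∏ i, (Matrix.of fun i => v (φ i)) (σ i) i) := by
    intro φ σ
    have e1 : (Matrix.of fun i => v ((φ ∘ σ) i)).det =
        ((Equiv.Perm.sign σ : ℤ) : ℝ) * (Matrix.of fun i => v (φ i)).det := by
      have := Matrix.det_permute σ (Matrix.of fun i => v (φ i))
      rw [← this]
      rfl
    have e2 : ∏ i, p ((φ ∘ σ) i) = ∏ i, p (φ i) := Equiv.prod_comp σ (fun i => p (φ i))
    rw [hF]
    simp only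
    rw [Finset.prod_mul_distrib, e1, e2]
    simp only [Function.comp, Matrix.of_apply]
    ring
  have h3 : ∀ φ : s → κ, ∑ σ : Equiv.Perm s, F (φ ∘ σ) =
      (∏ i, p (φ i)) * (Matrix.of fun i => v (φ i)).det ^ 2 := by
    intro φ
    rw [Finset.sum_congr rfl fun σ _ => h2 φ σ, ← Finset.mul_sum]
    have : ∑ σ : Equiv.Perm s, (((Equiv.Perm.sign σ : ℤ) : ℝ) *
        ∏ i, (Matrix.of fun i => v (φ i)) (σ i) i) = (Matrix.of fun i => v (φ i)).det := by
      rw [Matrix.det_apply']
    rw [this]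
    ring
  rw [← Finset.sum_congr rfl fun φ _ => h3 φ, Finset.sum_comm,
    ← Finset.sum_congr rfl fun σ _ => h1 σ, Finset.sum_const, Finset.card_univ,
    Fintype.card_perm, nsmul_eq_mul, mul_comm]

/-- TT-3b: all minors of vectors of `B` are at most one. -/
theorem IsAuer.minor_le {n : ℕ} {B : Set (Fin n → ℝ)} (hB : IsAuer n B) (A : Finset (Fin n))
    (t : A → Fin n → ℝ) (ht : ∀ i, t i ∈ B) :
    |(Matrix.of fun i j : A => t i j).det| ≤ 1 := by
  classical
  let M : Matrix (Fin n) (Fin n) ℝ := fun i => if h : i ∈ A then t ⟨i, h⟩ else 0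
  have h1 := Matrix.det_piecewise_one_eq_submatrix_det M A
  have h2 : (M.submatrix (↑) (↑) : Matrix A A ℝ) = Matrix.of fun i j : A => t i j := by
    ext i j
    simp only [M, Matrix.submatrix_apply, Matrix.of_apply]
    rw [dif_pos i.2]
  rw [← h2, ← h1]
  refine hB.det_le _ fun i => ?_
  by_cases h : i ∈ A
  · rw [Finset.piecewise_eq_of_mem _ _ _ h]
    change M i ∈ B
    simp only [M]
    rw [dif_pos h]
    exact ht _
  · rw [Finset.piecewise_eq_of_notMem _ _ _ h]
    have : (1 : Matrix (Fin n) (Fin n) ℝ).row i = Pi.single i 1 := by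
      ext j
      simp only [Matrix.row, Matrix.one_apply, Pi.single_apply]
      by_cases hij : i = j
      · rw [if_pos hij, if_pos hij.symm]
      · rw [if_neg hij, if_neg (fun h => hij h.symm)]
    rw [this]
    exact hB.single i

/-- TT-3c: principal minors of the matrices `gsum p t`. -/
theorem IsAuer.det_gsum_le {n : ℕ} {B : Set (Fin n → ℝ)} (hB : IsAuer n B) {κ : Type}
    [Fintype κ] (p : κ → ℝ) (hp : ∀ b, 0 ≤ p b) (hp1 : ∑ b, p b = 1) (t : κ → Fin n → ℝ)
    (ht : ∀ b, t b ∈ B) (A : Finset (Fin n)) :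
    ((gsum p t).submatrix (Subtype.val : A → Fin n) (Subtype.val : A → Fin n)).det ≤
      1 / (A.card.factorial : ℝ) := by
  classical
  have h0 : (gsum p t).submatrix (Subtype.val : A → Fin n) (Subtype.val : A → Fin n) =
      ∑ b, p b • Matrix.vecMulVec (fun i : A => t b i) (fun i : A => t b i) := by
    ext i j
    simp only [gsum, Matrix.submatrix_apply, Matrix.sum_apply, Matrix.smul_apply,
      Matrix.vecMulVec_apply]
  rw [h0, det_sum_vecMulVec, Fintype.card_coe]
  refine div_le_div_of_nonneg_right ?_ (by positivity)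
  calc ∑ φ : A → κ, (∏ i, p (φ i)) * (Matrix.of fun i => fun j : A => t (φ i) j).det ^ 2
      ≤ ∑ φ : A → κ, ∏ i, p (φ i) := by
        refine Finset.sum_le_sum fun φ _ => ?_
        have h1 := hB.minor_le A (fun i => t (φ i)) (fun i => ht _)
        have h2 : (Matrix.of fun i => fun j : A => t (φ i) j).det ^ 2 ≤ 1 := by
          rw [← sq_abs]
          exact pow_le_one₀ (abs_nonneg _) h1
        have h3 : 0 ≤ ∏ i, p (φ i) := Finset.prod_nonneg fun i _ => hp _
        nlinarith
    _ = ∏ _i : A, ∑ b, p b := by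
        rw [Finset.prod_univ_sum, Fintype.piFinset_univ]
    _ = 1 := by rw [hp1, Finset.prod_const_one]

end Pool.Agent.TT
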